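import Pool.Agent.H59.L.T374d34.N483.KM.Stm3
import Pool.Agent.H59.L.S8.R755.KF.M
import Pool.Agent.H59.L.S8.R755.KF.K1

/-!
# KM/MXF: fibres of maximal volume and of given volume
-/

set_option autoImplicit false

namespace Pool.Agent.N348.KM.MXF

open MeasureTheory Set Filter Topology
open scoped ENNReal InnerProductSpace
open Pool.Agent.R754.KG (E un sl Rv)
open Pool.Agent.R755.KF (CB)
open Pool.Agent.R755.KF.Maux (sup_ex sl_fin R_vol)
open Pool.Agent.N483.KM

variable {N d : ℕ} {K : Set (E N × E d)}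

/-- upper semicontinuity -/
theorem usc (h : CB K) (t0 : E d) {c : ℝ} (hc : Rv K t0 < c) : ∀ᶠ t in 𝓝 t0, Rv K t < c := by
  have hc0 : 0 < c := lt_of_le_of_lt ENNReal.toReal_nonneg hc
  have h1 : volume (sl K t0) < ENNReal.ofReal c := by
    rw [R_vol h t0]
    exact (ENNReal.ofReal_lt_ofReal_iff hc0).2 hc
  obtain ⟨U, hU, hUo, hUc⟩ := Set.exists_isOpen_lt_of_lt _ _ h1
  have h2 : IsCompact (K ∩ (Prod.fst ⁻¹' Uᶜ)) :=
    h.comp.inter_right (hUo.isClosed_compl.preimage continuous_fst)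
  have h3 : IsClosed (Prod.snd '' (K ∩ (Prod.fst ⁻¹' Uᶜ))) := (h2.image continuous_snd).isClosed
  have h4 : t0 ∉ Prod.snd '' (K ∩ (Prod.fst ⁻¹' Uᶜ)) := by
    rintro ⟨⟨x, t⟩, ⟨hx, hxU⟩, rfl⟩
    exact hxU (hU hx)
  filter_upwards [h3.isOpen_compl.mem_nhds h4] with t ht
  have h5 : sl K t ⊆ U := by
    intro x hx
    by_contra hxU
    exact ht ⟨(x, t), ⟨hx, hxU⟩, rfl⟩
  have h6 : volume (sl K t) < ENNReal.ofReal c := (measure_mono h5).trans_lt hUc
  rw [R_vol h t] at h6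
  exact (ENNReal.ofReal_lt_ofReal_iff hc0).1 h6

theorem t_MXF : S_MXF := by
  intro N d K h
  have hcomp : IsCompact (Prod.snd '' K) := h.comp.image continuous_snd
  have hout : ∀ t, t ∉ Prod.snd '' K → Rv K t = 0 := by
    intro t ht
    have h1 : sl K t = ∅ := by
      rw [eq_empty_iff_forall_notMem]
      intro x hx
      exact ht ⟨(x, t), hx, rfl⟩
    unfold Rv
    rw [h1, measure_empty, ENNReal.toReal_zero]
  obtain ⟨S, hS, -, ts, hts⟩ := sup_ex h (ρ := 1 / 2) (by norm_num)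
  have hts0 : 0 < Rv K ts := lt_of_lt_of_le (by linarith) hts
  have htsK : ts ∈ Prod.snd '' K := by
    by_contra hne
    rw [hout ts hne] at hts0
    exact lt_irrefl _ hts0
  have husc : UpperSemicontinuousOn (Rv K) (Prod.snd '' K) := by
    intro t _ c hc
    exact (usc h t hc).filter_mono nhdsWithin_le_nhds
  obtain ⟨tm, htm, hmax⟩ := husc.exists_isMaxOn ⟨ts, htsK⟩ hcomp
  have h0 : 0 < Rv K tm := lt_of_lt_of_le hts0 (hmax htsK)
  refine ⟨tm, h0, fun t => ?_⟩
  by_cases ht : t ∈ Prod.snd '' K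
  · exact hmax ht
  · rw [hout t ht]
    exact h0.le

/-- log-concave upper semicontinuous functions on a segment are continuous -/
theorem cont_of {f : ℝ → ℝ} {m : ℝ} (hm : 0 < m) (hfm : ∀ x ∈ Icc (0 : ℝ) 1, m ≤ f x)
    (husc : ∀ x ∈ Icc (0 : ℝ) 1, ∀ c, f x < c → ∀ᶠ y in 𝓝[Icc (0 : ℝ) 1] x, f y < c)
    (hlc : ∀ x ∈ Icc (0 : ℝ) 1, ∀ y ∈ Icc (0 : ℝ) 1, ∀ l : ℝ, 0 < l → l < 1 →
      f x ^ (1 - l) * f y ^ l ≤ f ((1 - l) * x + l * y)) : ContinuousOn f (Icc (0 : ℝ) 1) := by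
  intro x0 hx0
  have hlow : ∀ c, c < f x0 → ∀ᶠ y in 𝓝[Icc (0 : ℝ) 1] x0, c < f y := by
    intro c hc
    have hf0 : 0 < f x0 := hm.trans_le (hfm x0 hx0)
    have hg : Continuous fun l : ℝ => f x0 ^ (1 - l) * m ^ l :=
      (continuous_const.rpow (by fun_prop) fun _ => Or.inl hf0.ne').mul
        (continuous_const.rpow (by fun_prop) fun _ => Or.inl hm.ne')
    have hg0 : c < (fun l : ℝ => f x0 ^ (1 - l) * m ^ l) 0 := by
      simpa using hc
    have hev := hg.continuousAt.eventually (lt_mem_nhds hg0)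
    obtain ⟨l0, hl0, hl⟩ := Metric.eventually_nhds_iff.1 hev
    obtain ⟨l1, hl1⟩ : ∃ l1, l1 = min l0 1 := ⟨_, rfl⟩
    have hl1p : 0 < l1 := by rw [hl1]; exact lt_min hl0 one_pos
    have hl1a : l1 ≤ l0 := by rw [hl1]; exact min_le_left _ _
    have hl1b : l1 ≤ 1 := by rw [hl1]; exact min_le_right _ _
    have hkey : ∀ y ∈ Icc (0 : ℝ) 1, ∀ l : ℝ, 0 < l → l < l1 →
        c < f ((1 - l) * x0 + l * y) := by
      intro y hy l hlp hll
      have h1 := hl (y := l) (by
        rw [Real.dist_eq, sub_zero, abs_of_pos hlp]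
        linarith)
      refine lt_of_lt_of_le h1 (le_trans ?_ (hlc x0 hx0 y hy l hlp (by linarith)))
      exact mul_le_mul_of_nonneg_left (Real.rpow_le_rpow hm.le (hfm y hy) hlp.le)
        (Real.rpow_nonneg hf0.le _)
    have hA : ∀ᶠ y in 𝓝[Icc (0 : ℝ) 1] x0, x0 < y → y - x0 < l1 * (1 - x0) := by
      by_cases hx1 : x0 < 1
      · have h2 : ∀ᶠ y in 𝓝 x0, y < x0 + l1 * (1 - x0) :=
          gt_mem_nhds (by nlinarith)
        filter_upwards [h2.filter_mono nhdsWithin_le_nhds] with y hy _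
        linarith
      · filter_upwards [self_mem_nhdsWithin] with y hy hlt
        exact absurd (hlt.trans_le hy.2) hx1
    have hB : ∀ᶠ y in 𝓝[Icc (0 : ℝ) 1] x0, y < x0 → x0 - y < l1 * x0 := by
      by_cases hx1 : 0 < x0
      · have h2 : ∀ᶠ y in 𝓝 x0, x0 - l1 * x0 < y :=
          lt_mem_nhds (by nlinarith)
        filter_upwards [h2.filter_mono nhdsWithin_le_nhds] with y hy _
        linarith
      · filter_upwards [self_mem_nhdsWithin] with y hy hlt
        exact absurd (lt_of_le_of_lt hy.1 hlt) hx1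
    filter_upwards [hA, hB, self_mem_nhdsWithin] with y hyA hyB hy
    rcases lt_trichotomy y x0 with hlt | heq | hgt
    · have hx1 : 0 < x0 := lt_of_le_of_lt hy.1 hlt
      have h3 := hkey 0 ⟨le_rfl, zero_le_one⟩ ((x0 - y) / x0) (div_pos (by linarith) hx1)
        ((div_lt_iff₀ hx1).2 (hyB hlt))
      have h4 : (1 - (x0 - y) / x0) * x0 + (x0 - y) / x0 * 0 = y := by
        field_simp
        ring
      rw [h4] at h3
      exact h3
    · rw [heq]
      exact hc
    · have hx1 : 0 < 1 - x0 := by linarith [hy.2]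
      have h3 := hkey 1 ⟨zero_le_one, le_rfl⟩ ((y - x0) / (1 - x0)) (div_pos (by linarith) hx1)
        ((div_lt_iff₀ hx1).2 (hyA hgt))
      have h4 : (1 - (y - x0) / (1 - x0)) * x0 + (y - x0) / (1 - x0) * 1 = y := by
        field_simp
        ring
      rw [h4] at h3
      exact h3
  exact tendsto_order.2 ⟨fun c hc => hlow c hc, fun c hc => husc x0 hx0 c hc⟩

theorem t_IVT : S_IVT := by
  intro N d K ts tm v h hts hmax hv1 hv2
  obtain ⟨f, hf⟩ : ∃ f : ℝ → ℝ, f = fun x => Rv K (ts + x • (tm - ts)) := ⟨_, rfl⟩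
  have hf0 : f 0 = Rv K ts := by
    rw [hf]
    simp
  have hf1 : f 1 = Rv K tm := by
    rw [hf]
    simp
  have hlc : ∀ x y l : ℝ, 0 < l → l < 1 → f x ^ (1 - l) * f y ^ l ≤ f ((1 - l) * x + l * y) := by
    intro x y l hl0 hl1
    have h1 := Pool.Agent.R755.KF.geo N d K h (ts + x • (tm - ts)) (ts + y • (tm - ts)) l hl0 hl1
    have h2 : (1 - l) • (ts + x • (tm - ts)) + l • (ts + y • (tm - ts)) =
        ts + ((1 - l) * x + l * y) • (tm - ts) := by
      module
    rw [h2] at h1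
    rw [hf]
    exact h1
  have hfle : Rv K ts ≤ f 1 := by rw [hf1]; exact hmax ts
  have hfm : ∀ x ∈ Icc (0 : ℝ) 1, Rv K ts ≤ f x := by
    rintro x ⟨hx0, hx1⟩
    rcases hx0.eq_or_lt with rfl | hx0
    · rw [hf0]
    rcases hx1.eq_or_lt with rfl | hx1
    · exact hfle
    have h1 := hlc 0 1 x hx0 hx1
    rw [mul_zero, zero_add, mul_one, hf0] at h1
    refine le_trans ?_ h1
    calc Rv K ts = Rv K ts ^ (1 - x) * Rv K ts ^ x := by
          rw [← Real.rpow_add hts, sub_add_cancel, Real.rpow_one]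
      _ ≤ _ := mul_le_mul_of_nonneg_left (Real.rpow_le_rpow hts.le hfle hx0.le)
          (Real.rpow_nonneg hts.le _)
  have hcont : ContinuousOn f (Icc (0 : ℝ) 1) := by
    refine cont_of hts hfm (fun x _ c hc => ?_) (fun x _ y _ l hl0 hl1 => hlc x y l hl0 hl1)
    have hline : Continuous fun x : ℝ => ts + x • (tm - ts) := by fun_prop
    have hc' : Rv K (ts + x • (tm - ts)) < c := by
      have h1 := hc
      rw [hf] at h1
      exact h1
    have h2 := hline.continuousAt.eventually (usc h _ hc')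
    rw [hf]
    exact h2.filter_mono nhdsWithin_le_nhds
  have h1 := intermediate_value_Icc (zero_le_one' ℝ) hcont
  obtain ⟨x, hx, hxv⟩ : v ∈ f '' Icc (0 : ℝ) 1 :=
    h1 ⟨by rw [hf0]; exact hv1, by rw [hf1]; exact hv2⟩
  refine ⟨x, hx.1, hx.2, ?_⟩
  rw [hf] at hxv
  exact hxv

end Pool.Agent.N348.KM.MXF
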